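import Pool.Agent.H24.CL.TargetsK

/-!
# Power saving above the square root barrier: definitions (helper24)
-/

set_option autoImplicit false

open Finset MeasureTheory

namespace Pool.Agent.H24.LV

open Pool.Agent.H24.CL

/-! ### Lines -/

/-- the density of the cells of the `q`-line `a` which lie in `V` -/
noncomputable def hd {k : ℕ} (q : ℕ) (V : Set (X k)) (a : X k) : ℝ := ((pos q V a).card : ℝ) / q

/-- every coset of `Γ` contains at most `B` points of `W` which are different modulo `Λ` -/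
def CntM {k : ℕ} (Γ Λ : AddSubgroup (X k)) (W : Set (X k)) (B : ℝ) : Prop :=
  ∀ Y : Finset (X k), (∀ y ∈ Y, y ∈ W) → (∀ y ∈ Y, ∀ y' ∈ Y, y - y' ∈ Γ) →
    (∀ y ∈ Y, ∀ y' ∈ Y, y - y' ∈ Λ → y = y') → (Y.card : ℝ) ≤ B

/-- the good `q`-lines: they meet `A` modulo `H k q 1` and their density in `V` is at least `τ` -/
def GdL (k q : ℕ) (A V : Set (X k)) (τ : ℝ) : Set (X k) :=
  {a | (∃ h ∈ H k q 1, a + h ∈ A) ∧ τ ≤ hd q V a}

open Classical in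
/-- the kernel of `phi D x` as a finite set -/
noncomputable def Kr (k D x : ℕ) : Finset (X k) := (HF k D k).filter fun a => phi D x a = 0

/-- the product of a finite set of primes -/
def DS (S : Finset ℕ) : ℕ := ∏ p ∈ S, p

/-- the cell `x` of the line `b` (modulo `DS S`) is the centre of a star -/
def Star {k : ℕ} (S : Finset ℕ) (V : Set (X k)) (Gd : ℕ → Set (X k)) (b : X k) (x : ℕ) : Prop :=
  phi (DS S) x b ∈ V ∧ ∀ p ∈ S, phi (DS S / p) (x % (DS S / p)) b ∈ Gd p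

/-- the normalised measure of a set of pairs (line, cell) -/
noncomputable def mass (k D : ℕ) (T : X k → ℕ → Prop) : ℝ :=
  (D : ℝ) ^ (KN k - k) * ((1 / (D : ℝ)) * ∑ x ∈ range D, volume.real {b : X k | T b x})

open Classical in
/-- the density of the crossings of the `q`-line `phi p y b` with good `p`-lines parallel to those
of the grid `b` -/
noncomputable def acr {k : ℕ} (p q : ℕ) (V G : Set (X k)) (b : X k) (y : ℕ) : ℝ :=
  (((range q).filter fun z => phi q z (phi p y b) ∈ V ∧ phi q ((y + p * z) % q) b ∈ G).card : ℝ) / q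

open Classical in
/-- the number of the crossings of the `q`-line `phi p y b` with good `p`-lines of rare directions -/
noncomputable def lon {k : ℕ} (p q : ℕ) (V G : Set (X k)) (kap : ℝ) (b : X k) (y : ℕ) : ℝ :=
  ∑ κ ∈ Kr k p y, if acr p q V G (b + κ) y < kap then (q : ℝ) * acr p q V G (b + κ) y else 0

/-- `phi p y b` is a bad `q`-line for the position `y` -/
def Bad {k : ℕ} (p q : ℕ) (V G : Set (X k)) (kap : ℝ) (b : X k) (y : ℕ) : Prop :=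
  kap * q * (p : ℝ) ^ k ≤ lon p q V G (kap / 2) b y

open Classical in
/-- a star over `insert q S` is lonely: few stars with the same grid on the same `q`-line have
their `DS S`-line at least as dense -/
def Lonely {k : ℕ} (S : Finset ℕ) (q : ℕ) (V : Set (X k)) (Gd : ℕ → Set (X k)) (kap : ℝ) (b : X k)
    (x : ℕ) : Prop :=
  Star (insert q S) V Gd b x ∧
    (((range q).filter fun z => Star (insert q S) V Gd b (x % DS S + DS S * z) ∧
      hd (DS S) V (phi q (x % q) b) ≤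
        hd (DS S) V (phi q ((x % DS S + DS S * z) % q) b)).card : ℝ) < kap * q

/-- Data for the star lemma. -/
structure SData (k : ℕ) (S : Finset ℕ) (V : Set (X k)) (Gd : ℕ → Set (X k)) (P ν m τ Ω : ℝ) :
    Prop where
  hk : 3 ≤ k
  hP : 1 ≤ P
  hν : 1 ≤ ν
  hm : ν ≤ m
  hτ : 0 < τ
  hτ1 : τ ≤ 1
  hΩ : 0 ≤ Ω
  pr : ∀ p ∈ S, p.Prime ∧ k < p ∧ P ≤ (p : ℝ) ∧ (p : ℝ) ≤ 2 * P
  mV : MeasurableSet V
  mG : ∀ p ∈ S, MeasurableSet (Gd p)
  inv : ∀ p ∈ S, ∀ a ∈ Gd p, ∀ h ∈ H k p 1, a + h ∈ Gd p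
  den : ∀ p ∈ S, ∀ a ∈ Gd p, τ ≤ hd p V a
  fib : ∀ p ∈ S, CntM (H k p k) (H k p 1) (Gd p) ν
  fib2 : ∀ p ∈ S, ∀ q ∈ S, p ≠ q → CntM (H k p k ⊔ H k q k) (H k p 1) (Gd p) m
  ms : ∀ p ∈ S, (p : ℝ) ^ (KN k - k) * volume.real (Gd p) ≤ Ω

/-- a star all sub-stars of which have dense grids -/
def Rich {k : ℕ} (S : Finset ℕ) (V : Set (X k)) (kap : ℝ) (b : X k) (x : ℕ) : Prop :=
  ∀ S' ⊆ S, kap ≤ hd (DS S') V (phi (DS S / DS S') (x % (DS S / DS S')) b)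

/-! ### The end -/

/-- the mean square over the cells of a `D`-line -/
noncomputable def VD {k : ℕ} (D N : ℕ) (b : X k) : ℝ :=
  (1 / (D : ℝ)) * ∑ x ∈ range D, ‖u N (phi D x b)‖ ^ 2

/-- `|E_z e((F(z) - l z)/q)|²` for the polynomial `F = ∑_{i ≥ 1} f_i z^(i+1)` -/
noncomputable def Al {k : ℕ} (q : ℕ) (f : Fin k → ℤ) (l : ℤ) : ℝ :=
  ‖(1 / (q : ℂ)) * ∑ z ∈ range q, e ((((∑ i : Fin k, (if i.val = 0 then 0 else
    (f i : ℝ) * (z : ℝ) ^ (i.val + 1))) - (l : ℝ) * z) / (q : ℝ) : ℝ) : UnitAddCircle)‖ ^ 2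

/-- `|N⁻¹ ∫_τ^(τ+N) e(s x + ∑_{i ≥ 1} η_i x^(i+1)) dx|²` -/
noncomputable def gI {k : ℕ} (N : ℝ) (η : Fin k → ℝ) (τ s : ℝ) : ℝ :=
  ‖(1 / (N : ℂ)) * ∫ x in τ..(τ + N), e ((s * x + ∑ i : Fin k, (if i.val = 0 then 0 else
    η i * x ^ (i.val + 1)) : ℝ) : UnitAddCircle)‖ ^ 2

/-- the functional `∑_{l mod q} A_l ∑_ν g(ξ + l/q - ν)` -/
noncomputable def VF {k : ℕ} (q : ℕ) (f : Fin k → ℤ) (N : ℝ) (η : Fin k → ℝ) (τ ξ : ℝ) : ℝ :=
  ∑ l ∈ range q, Al q f (l : ℤ) * ∑' n : ℤ, gI N η τ (ξ + (l : ℝ) / q - n)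

/-- The set of the points which are seen by the functional: `ω_i = f_i/q + η_i` for `i ≥ 1`. -/
def WS (k N : ℕ) (R M' : ℝ) : Set (X k) :=
  {w | ∃ (q : ℕ) (f : Fin k → ℤ) (η : Fin k → ℝ) (τ ξ : ℝ), 1 ≤ q ∧ (q : ℝ) ≤ R ∧
    (∀ i : Fin k, i.val ≠ 0 → w i = (((f i : ℝ) / q + η i : ℝ) : UnitAddCircle)) ∧
    (∀ d : ℕ, d ∣ q → (∀ i : Fin k, i.val ≠ 0 → (d : ℤ) ∣ f i) → d = 1) ∧
    (∀ i : Fin k, i.val ≠ 0 → |η i| ≤ R * (N : ℝ) ^ (-((i.val : ℝ) + 1))) ∧ -1 ≤ τ ∧ τ ≤ 0 ∧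
    (∀ i : Fin k, i.val = 0 → w i = (ξ : UnitAddCircle)) ∧ 1 / M' ≤ VF q f N η τ ξ}

end Pool.Agent.H24.LV
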