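import Pool.Agent.H24.LV.Defs

/-!
# Power saving above the square root barrier: targets, sections 1 to 5 (helper24)

Page: E21_LV.md. Every `L_X` is a proposition to be proved in a module of its own.
-/

set_option autoImplicit false

open Finset MeasureTheory

namespace Pool.Agent.H24.LV

open Pool.Agent.H24.CL

/-! ## 1. Fibre bounds -/

/-- WT: the weak type estimate. -/
def L_WT : Prop :=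
  ∀ k : ℕ, 3 ≤ k → ∃ C : ℝ, 1 ≤ C ∧ ∀ (N : ℕ) (t : ℝ), 1 ≤ N → 0 < t →
    (N : ℝ) ^ (KN k) * t ^ (2 * KN k) * volume.real {a : X k | t ≤ ‖u N a‖} ≤ C

/-- GA: the game with a logarithmic length. -/
def L_GA : Prop :=
  ∀ k : ℕ, 3 ≤ k → ∃ CA : ℝ, 1 ≤ CA ∧ ∀ c₁ : ℝ, 0 < c₁ → c₁ ≤ 1 → ∃ δ : ℝ, 0 < δ ∧ ∀ D : ℝ,
    CA * (1 + Real.log (1 / c₁)) ≤ D →
    ∃ kap : ℝ, 0 < kap ∧ ∀ (m : ℕ) (g p : ℕ → ℝ) (R : ℕ → ℕ), (m : ℝ) ≤ ((KN k : ℝ) + 4) * D →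
    (∀ j, 0 ≤ g j) → (∀ j, 0 ≤ p j ∧ p j ≤ 1) → (∀ j, R j ≤ k) →
    (∀ j < m, 1 ≤ R j → 1 - kap ≤ p j) →
    (∀ j < m, p j ≤ g j + kap) → D - 4 ≤ ∑ j ∈ range m, (1 - g j) → (∃ l < k, c₁ ≤ g l) →
    ∃ (n' : ℕ) (x : ℕ → ℝ), n' + (k - 1) ≤ m ∧ (∀ j < n', OptK k R g p kap j (x j)) ∧
      δ ≤ ∑ j ∈ range n', x j

/-- BD: chains with growth in the first `k` windows are rare, with a logarithmic length. -/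
def L_BD : Prop :=
  ∀ k : ℕ, 3 ≤ k → ∃ CA : ℝ, 1 ≤ CA ∧ ∀ c₁ : ℝ, 0 < c₁ → c₁ ≤ 1 → ∃ δ : ℝ, 0 < δ ∧ ∀ D : ℝ,
    CA * (1 + Real.log (1 / c₁)) ≤ D → ∃ ε₀ : ℝ, 0 < ε₀ ∧
    ∀ (ε T : ℝ) (m : ℕ), 0 < ε → ε ≤ ε₀ → 1 ≤ T → (m : ℝ) ≤ ((KN k : ℝ) + 4) * D → ∃ q₀ : ℕ,
    ∀ (q L : ℕ) (t₀ : ℝ) (W : ℕ → Set (X k)) (A n : ℕ → ℝ) (R : ℕ → ℕ), q₀ ≤ q → q.Prime → 1 ≤ L →
      0 < t₀ →
      (q : ℝ) ^ (D - 1) ≤ ((q : ℝ) ^ m * L) * t₀ ^ 2 →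
      ((q : ℝ) ^ m * L) * t₀ ^ 2 ≤ (q : ℝ) ^ (D + 1) →
      (((KN k : ℝ) + 2) * (D + 1) ≤ m ∨ L ≤ q ^ 2) →
      IsChain k q m L T ((q : ℝ) ^ ε) t₀ W A n → IsLab k q m ((q : ℝ) ^ ε) W n R →
      (∃ l < k, (q : ℝ) ^ c₁ ≤ Gr q T ((q : ℝ) ^ ε) A n l) →
      ((q : ℝ) ^ m * L) ^ (KN k) * t₀ ^ (2 * KN k) * volume.real (W 0) ≤ (q : ℝ) ^ (-δ)

/-- CH: the alive points of level `N` lie in a small exceptional set or in the first sets of boundedly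
many good chains. -/
def L_CH : Prop :=
  ∀ k : ℕ, 3 ≤ k → ∃ CA : ℝ, 1 ≤ CA ∧ ∀ c₁ : ℝ, 0 < c₁ → c₁ ≤ 1 / 10 → ∃ d : ℝ, 0 < d ∧
    ∀ Dm ε₁ : ℝ, 0 < ε₁ → ∃ (q₀ TT m₁ : ℕ) (T ε : ℝ), 1 ≤ T ∧ 0 < ε ∧ ε ≤ ε₁ ∧
    ∀ (q N : ℕ) (t : ℝ), q₀ ≤ q → q.Prime → 1 ≤ N → 0 < t → t ≤ 1 →
    (q : ℝ) ^ (CA * (1 + Real.log (1 / c₁))) ≤ N * t ^ 2 → N * t ^ 2 ≤ (q : ℝ) ^ Dm →
    ∃ (m L : ℕ) (E : Set (X k)) (W : Fin TT → ℕ → Set (X k)) (A n : Fin TT → ℕ → ℝ),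
      k ≤ m ∧ m ≤ m₁ ∧ q ≤ L ∧ q ^ m * L ≤ N ∧ N ≤ 2 * (q ^ m * L) ∧ MeasurableSet E ∧
      (N : ℝ) ^ (KN k) * t ^ (2 * KN k) * volume.real E ≤ (q : ℝ) ^ (-d) ∧
      (∀ c, IsChain k q m L T ((q : ℝ) ^ ε) (3 * t / 4) (W c) (A c) (n c) ∧
        ∀ l < k, Gr q T ((q : ℝ) ^ ε) (A c) (n c) l ≤ (q : ℝ) ^ c₁) ∧
      {a : X k | t ≤ ‖u N a‖} ⊆ E ∪ ⋃ c, W c 0

/-- FB: few alive points in every coset of `H k q k`, outside a small set. -/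
def L_FB : Prop :=
  ∀ k : ℕ, 3 ≤ k → ∃ CA : ℝ, 1 ≤ CA ∧ ∀ c : ℝ, 0 < c → c ≤ 1 / 10 → ∃ d : ℝ, 0 < d ∧ ∀ Dm : ℝ,
    ∃ q₀ : ℕ, ∀ (q N : ℕ) (t : ℝ), q₀ ≤ q → q.Prime → 1 ≤ N → 0 < t →
    (q : ℝ) ^ (CA * (1 + Real.log (1 / c))) ≤ N * t ^ 2 → N * t ^ 2 ≤ (q : ℝ) ^ Dm →
    ∃ E : Set (X k), MeasurableSet E ∧
      (N : ℝ) ^ (KN k) * t ^ (2 * KN k) * volume.real E ≤ (q : ℝ) ^ (-d) ∧
      Cnt (H k q k) ({a : X k | t ≤ ‖u N a‖} \ E) ((q : ℝ) ^ c)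

/-- JP: Johnson's bound along the `q`-adic tower for cosets of `H k p k ⊔ H k q k`. -/
def L_JP : Prop :=
  ∀ k : ℕ, 2 ≤ k → ∃ C : ℝ, 1 ≤ C ∧ ∀ (p q : ℕ), p.Prime → q.Prime → p ≠ q → k < q →
    ∀ (W : ℕ → Set (X k)) (B F G : ℝ), 1 ≤ B → 1 ≤ F → 1 ≤ G →
    (∀ j < k, Car q (W j) (W (j + 1)) ((q : ℝ) / B)) → (∀ j < k, Cnt (H k q 1) (W j) F) →
    Cnt (H k p k) (W k) G → C * (B ^ (2 * k + 2) * F ^ k * G) ≤ q →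
      Cnt (H k p k ⊔ H k q k) (W 0) (C * (B ^ (2 * k) * F ^ k * G))

/-- RM: removing small exceptional sets from a tower. -/
def L_RM : Prop :=
  ∀ (k q m : ℕ), 3 ≤ k → 1 ≤ q → ∀ (W E : ℕ → Set (X k)) (n ν : ℕ → ℝ),
    (∀ j ≤ m, MeasurableSet (W j)) → (∀ j ≤ m, MeasurableSet (E j)) →
    (∀ j < m, 0 < n j ∧ 0 ≤ ν j ∧ Car q (W j) (W (j + 1)) (n j) ∧
      Cnt (H k q k) (W j \ E j) (ν j)) →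
    ∃ W' : ℕ → Set (X k), (∀ j ≤ m, MeasurableSet (W' j) ∧ W' j ⊆ W j \ E j) ∧
      (∀ j < m, Car q (W' j) (W' (j + 1)) (n j / 2)) ∧ W' m = W m \ E m ∧
      volume.real (W 0 \ W' 0) ≤ ∑ j ∈ range (m + 1),
        (∏ i ∈ range j, (2 * q * ν i / (n i * (q : ℝ) ^ (KN k)))) * volume.real (W j ∩ E j)

/-- FP: few alive points in every coset of `H k p k ⊔ H k q k`, outside a small set. -/
def L_FP : Prop :=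
  ∀ k : ℕ, 3 ≤ k → ∀ c : ℝ, 0 < c → c ≤ 1 / 10 → ∃ d Ds : ℝ, 0 < d ∧ ∀ Dm : ℝ, ∃ q₀ : ℕ,
    ∀ (p q N : ℕ) (t : ℝ), q₀ ≤ p → q₀ ≤ q → p.Prime → q.Prime → p ≠ q → p ≤ 2 * q → q ≤ 2 * p →
    1 ≤ N → 0 < t → (q : ℝ) ^ Ds ≤ N * t ^ 2 → N * t ^ 2 ≤ (q : ℝ) ^ Dm →
    ∃ E : Set (X k), MeasurableSet E ∧
      (N : ℝ) ^ (KN k) * t ^ (2 * KN k) * volume.real E ≤ (q : ℝ) ^ (-d) ∧
      Cnt (H k p k ⊔ H k q k) ({a : X k | t ≤ ‖u N a‖} \ E) ((q : ℝ) ^ c)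

/-! ## 2. Retention -/

/-- RT: most alive points have many alive cells. -/
def L_RT : Prop :=
  ∀ k : ℕ, 3 ≤ k → ∃ C : ℝ, 1 ≤ C ∧ ∀ (q N : ℕ) (t ν τ : ℝ) (A : Set (X k)), 1 ≤ q → 1 ≤ N →
    0 < t → 1 ≤ ν → 0 < τ → τ ≤ 1 / 8 → MeasurableSet A → (∀ a ∈ A, t ≤ ‖u (q * N) a‖) →
    Cnt (H k q k) A ν →
    ((q : ℝ) * N) ^ (KN k) * t ^ (2 * KN k) *
      volume.real {a : X k | a ∈ A ∧ hd q {v : X k | t / 4 ≤ ‖u N v‖} a < τ} ≤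
        C * ν * τ ^ (2 * KN k - 1)

/-- GM: the good lines: measurability, invariance, fibres and mass. -/
def L_GM : Prop :=
  ∀ (k q : ℕ), 1 ≤ k → 1 ≤ q → ∀ (A V : Set (X k)) (τ ν : ℝ), MeasurableSet A → MeasurableSet V →
    0 < τ → 1 ≤ ν → Cnt (H k q k) A ν →
    MeasurableSet (GdL k q A V τ) ∧ (∀ a ∈ GdL k q A V τ, ∀ h ∈ H k q 1, a + h ∈ GdL k q A V τ) ∧
    (∀ Γ : AddSubgroup (X k), H k q 1 ≤ Γ → ∀ B : ℝ, Cnt Γ A B →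
      CntM Γ (H k q 1) (GdL k q A V τ) B) ∧
    volume.real (GdL k q A V τ) ≤ (q : ℝ) ^ k * volume.real A ∧
    (q : ℝ) ^ k * volume.real {a : X k | a ∈ A ∧ τ ≤ hd q V a} ≤ ν * volume.real (GdL k q A V τ) ∧
    (∀ A' ⊆ A, MeasurableSet A' → volume.real (GdL k q A V τ \ GdL k q A' V τ) ≤
      (q : ℝ) ^ k * volume.real (A \ A'))

/-! ## 3. The pool -/

/-- PP: many primes in a short interval. -/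
def L_PP : Prop :=
  ∃ P₀ : ℝ, ∀ P : ℝ, P₀ ≤ P → ∃ (P' : ℝ) (Q : Finset ℕ), Real.sqrt P ≤ P' ∧ P' ≤ P ∧
    (∀ p ∈ Q, p.Prime ∧ P' ≤ (p : ℝ) ∧ (p : ℝ) ≤ P' * (1 + P ^ (-(1 / 8 : ℝ)))) ∧
    P ^ (1 / 4 : ℝ) ≤ (Q.card : ℝ)

/-- PT: shortening the sum a little. -/
def L_PT : Prop :=
  ∀ k : ℕ, 3 ≤ k → ∃ C : ℝ, 1 ≤ C ∧ ∀ (N N' : ℕ) (t w : ℝ), 1 ≤ N' → N' ≤ N → 0 < t → 0 ≤ w →
    (N : ℝ) - N' ≤ w * N →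
    (N : ℝ) ^ (KN k) * t ^ (2 * KN k) * volume.real {a : X k | t ≤ ‖u N a‖} ≤
      (N : ℝ) ^ (KN k) * t ^ (2 * KN k) * volume.real {a : X k | t / 2 ≤ ‖u N' a‖} + C * w ^ (KN k)

/-! ## 4. Stars -/

/-- CO: composition of the maps and kernels. -/
def L_CO : Prop :=
  (∀ (k D E x y : ℕ) (a : X k), phi D x (phi E y a) = phi (D * E) (y + E * x) a) ∧
  (∀ (k D x : ℕ) (a : X k), a ∈ H k D 1 → phi D x a = 0) ∧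
  (∀ (k D x r : ℕ) (a : X k), D.Coprime r → r • a = 0 → phi D x a = 0 → a = 0) ∧
  (∀ (k D x : ℕ), 1 ≤ D → (Kr k D x).card = D ^ (KN k) ∧
    ∀ a : X k, a ∈ Kr k D x ↔ phi D x a = 0) ∧
  (∀ (k D E : ℕ), D.Coprime E → H k (D * E) k = H k D k ⊔ H k E k)

/-- CT: the Chinese remainder theorem for kernels. -/
def L_CT : Prop :=
  ∀ (k D E z : ℕ), 1 ≤ D → 1 ≤ E → D.Coprime E → z < D * E →
    (∀ κ ∈ Kr k (D * E) z, phi E (z % E) κ ∈ Kr k D (z / E) ∧ phi D (z % D) κ ∈ Kr k E (z / D)) ∧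
    ∀ κ₁ ∈ Kr k D (z / E), ∀ κ₂ ∈ Kr k E (z / D),
      ∃! κ : X k, κ ∈ Kr k (D * E) z ∧ phi E (z % E) κ = κ₁ ∧ phi D (z % D) κ = κ₂

/-- AI: averaging over a finite subgroup of translations. -/
def L_AI : Prop :=
  ∀ (k : ℕ) (Y : Finset (X k)) (F : X k → ℝ) (B : ℝ), Y.Nonempty → Measurable F →
    (∀ a, |F a| ≤ B) → ∫ a, F a = (1 / (Y.card : ℝ)) * ∫ a, ∑ κ ∈ Y, F (a + κ)

/-- SC: a measurable section and integration over the fibres. -/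
def L_SC : Prop :=
  ∀ (k D x : ℕ), 1 ≤ D → ∃ s : X k → X k, Measurable s ∧ (∀ w, phi D x (s w) = w) ∧
    ∀ (F : X k → ℝ) (B : ℝ), Measurable F → (∀ a, |F a| ≤ B) →
      (D : ℝ) ^ (KN k) * ∫ a, F a = ∫ w, ∑ κ ∈ Kr k D x, F (s w + κ)

/-- TR: adding one prime to a set of stars. -/
def L_TR : Prop :=
  ∀ (k : ℕ) (S : Finset ℕ) (V : Set (X k)) (Gd : ℕ → Set (X k)) (P ν m τ Ω : ℝ) (q : ℕ), q ∉ S →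
    SData k (insert q S) V Gd P ν m τ Ω → ∀ T : X k → ℕ → Prop,
    (∀ x, MeasurableSet {b : X k | T b x}) →
    mass k (DS (insert q S)) (fun b x => T (phi q (x % q) b) (x / q) ∧
        phi (DS S) (x % DS S) b ∈ Gd q) ≤ ν * mass k (DS S) T

/-- PC: bad `q`-lines in a table. The pairs (line, position) are counted modulo `H k q 1`. -/
def L_PC : Prop :=
  ∀ k : ℕ, 3 ≤ k → ∃ C : ℝ, 1 ≤ C ∧ ∀ (S : Finset ℕ) (V : Set (X k)) (Gd : ℕ → Set (X k))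
    (P ν m τ Ω kap : ℝ), SData k S V Gd P ν m τ Ω → 0 < kap → kap ≤ 1 → 8 * ν ≤ kap * P →
    ∀ p ∈ S, ∀ q ∈ S, p ≠ q → ∀ (a : X k) (Y : ℕ → Finset (X k)),
    (∀ y < p, ∀ b ∈ Y y, b - a ∈ H k p k ⊔ H k q k ∧ phi p y b ∈ Gd q ∧ Bad p q V (Gd p) kap b y) →
    (∀ y < p, ∀ b ∈ Y y, ∀ b' ∈ Y y, phi p y (b - b') ∈ H k q 1 → b = b') →
    (∑ y ∈ range p, ((Y y).card : ℝ) ≤ C * m ^ 3 / kap ^ 2) ∧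
    ((∃ y < p, (Y y).Nonempty) → ∃ Z : ℕ → Finset (X k),
      (∀ z < q, ∀ b ∈ Z z, b - a ∈ H k p k ⊔ H k q k ∧ phi q z b ∈ Gd p) ∧
      (∀ z < q, ∀ b ∈ Z z, ∀ b' ∈ Z z, phi q z (b - b') ∈ H k p 1 → b = b') ∧
      kap * q ≤ ∑ z ∈ range q, ((Z z).card : ℝ))

/-- PL: the pair lemma. -/
def L_PL : Prop :=
  ∀ k : ℕ, 3 ≤ k → ∃ C : ℝ, 1 ≤ C ∧ ∀ (S : Finset ℕ) (V : Set (X k)) (Gd : ℕ → Set (X k))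
    (P ν m τ Ω kap : ℝ), SData k S V Gd P ν m τ Ω → 0 < kap → kap ≤ 1 → 8 * ν ≤ kap * P →
    ∀ p ∈ S, ∀ q ∈ S, p ≠ q →
    (q : ℝ) ^ (KN k - k) * ((1 / (p : ℝ)) * ∑ y ∈ range p,
      volume.real {b : X k | phi p y b ∈ Gd q ∧ Bad p q V (Gd p) kap b y}) ≤
        C * m ^ 3 / (kap ^ 3 * P) * Ω

/-- NL: a star which is not lonely has a dense grid. -/
def L_NL : Prop :=
  ∀ (k : ℕ) (S : Finset ℕ) (V : Set (X k)) (Gd : ℕ → Set (X k)) (P ν m τ Ω kap : ℝ) (q : ℕ),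
    q ∉ S → SData k (insert q S) V Gd P ν m τ Ω → ∀ (b : X k) (x : ℕ), x < DS (insert q S) →
    Star (insert q S) V Gd b x → ¬ Lonely S q V Gd kap b x →
      kap * hd (DS S) V (phi q (x % q) b) ≤ hd (DS (insert q S)) V b

/-- LC: the number of the lonely stars, and of all stars, over a `q`-line. -/
def L_LC : Prop :=
  ∀ (k : ℕ) (S : Finset ℕ) (V : Set (X k)) (Gd : ℕ → Set (X k)) (P ν m τ Ω kap kap' : ℝ) (q : ℕ),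
    q ∉ S → SData k (insert q S) V Gd P ν m τ Ω → 0 < kap → kap ≤ 1 → 0 < kap' →
    ∀ (b : X k) (y : ℕ), y < DS S → phi (DS S) y b ∈ Gd q →
    (∑ z ∈ range q, ((Nat.card {κ : Kr k (DS S) y // Star (insert q S) V Gd (b + κ.1)
      (y + DS S * z)} : ℕ) : ℝ) ≤ (DS S : ℝ) ^ k * q * ν ^ S.card) ∧
    ((∀ p ∈ S, ¬ Bad p q V (Gd p) kap (phi (DS S / p) (y % (DS S / p)) b) (y / (DS S / p))) →
      ∑ z ∈ range q, ((Nat.card {κ : Kr k (DS S) y // Lonely S q V Gd kap' (b + κ.1)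
        (y + DS S * z)} : ℕ) : ℝ) ≤
        (DS S : ℝ) ^ k * q * (S.card * ν ^ (S.card - 1) * kap + kap' * (2 * ν / kap) ^ S.card))

/-- LM: the mass of the lonely stars. -/
def L_LM : Prop :=
  ∀ k : ℕ, 3 ≤ k → ∃ C : ℝ, 1 ≤ C ∧ ∀ (S : Finset ℕ) (V : Set (X k)) (Gd : ℕ → Set (X k))
    (P ν m τ Ω kap kap' : ℝ) (q : ℕ), q ∉ S → SData k (insert q S) V Gd P ν m τ Ω → 0 < kap →
    kap ≤ 1 → 8 * ν ≤ kap * P → 0 < kap' →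
    mass k (DS (insert q S)) (fun b x => Lonely S q V Gd kap' b x) ≤
      (S.card * ν ^ S.card * (C * m ^ 3 / (kap ^ 3 * P)) + S.card * ν ^ S.card * kap +
        kap' * (2 * ν / kap) ^ S.card) * Ω

/-- RI: stars which are not rich are rare. -/
def L_RI : Prop :=
  ∀ k : ℕ, 3 ≤ k → ∀ n : ℕ, ∃ C : ℝ, 1 ≤ C ∧ ∀ (S : Finset ℕ) (V : Set (X k)) (Gd : ℕ → Set (X k))
    (P ν m τ Ω kap kap' : ℝ), S.card = n → SData k S V Gd P ν m τ Ω → 0 < kap → kap ≤ 1 →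
    8 * ν ≤ kap * P → 0 < kap' → kap' ≤ 1 →
    mass k (DS S) (fun b x => Star S V Gd b x ∧ ¬ Rich S V (kap' ^ n * τ) b x) ≤
      C * ν ^ (2 * n) * (m ^ 3 / (kap ^ 3 * P) + kap + kap' * (ν / kap) ^ n) * Ω

/-- ST: the mass of the stars as an integral over the points. -/
def L_ST : Prop :=
  ∀ (k : ℕ) (Q : Finset ℕ) (V : Set (X k)) (Gd : ℕ → Set (X k)) (ν : ℝ), 3 ≤ k → 1 ≤ ν →
    (∀ p ∈ Q, p.Prime) → MeasurableSet V → (∀ p ∈ Q, MeasurableSet (Gd p)) →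
    (∀ p ∈ Q, ∀ a ∈ Gd p, ∀ h ∈ H k p 1, a + h ∈ Gd p) →
    (∀ p ∈ Q, CntM (H k p k) (H k p 1) (Gd p) ν) →
    ∃ G : ℕ → ℕ → X k → ℝ, (∀ p x, Measurable (G p x)) ∧ (∀ p x w, 0 ≤ G p x w ∧ G p x w ≤ ν) ∧
      (∀ p ∈ Q, ∀ x < p, ∀ F : X k → ℝ, ∀ B : ℝ, Measurable F → (∀ a, |F a| ≤ B) →
        (p : ℝ) ^ (KN k - k) * ∫ a in Gd p, F (phi p x a) = ∫ w, F w * G p x w) ∧
      ∀ S ⊆ Q, ∀ x < DS S, (DS S : ℝ) ^ (KN k - k) * volume.real {b : X k | Star S V Gd b x} =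
        ∫ w in V, ∏ p ∈ S, G p (x / (DS S / p)) w

/-- JE: Jensen's inequality over the pool. -/
def L_JE : Prop :=
  ∀ k : ℕ, 3 ≤ k → ∀ (Q : Finset ℕ) (V : Set (X k)) (Gd : ℕ → Set (X k)) (ν ρ Ω : ℝ) (n : ℕ),
    1 ≤ ν → 0 < ρ → ρ ≤ 1 → 0 < Ω → 1 ≤ n →
    (∀ p ∈ Q, p.Prime) → MeasurableSet V → (∀ p ∈ Q, MeasurableSet (Gd p)) →
    (∀ p ∈ Q, ∀ a ∈ Gd p, ∀ h ∈ H k p 1, a + h ∈ Gd p) →
    (∀ p ∈ Q, CntM (H k p k) (H k p 1) (Gd p) ν) → volume.real V ≤ Ω →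
    (∀ p ∈ Q, ρ * Ω ≤ (p : ℝ) ^ (KN k - k) * ∫ a in Gd p, hd p V a) →
    2 * (n : ℝ) ^ 2 * ν ^ n ≤ ρ ^ n * Q.card →
    ∃ S ⊆ Q, S.card = n ∧ ρ ^ n * Ω ≤ 2 * mass k (DS S) (fun b x => Star S V Gd b x)

/-- LO: changing the good lines a little. -/
def L_LO : Prop :=
  ∀ (k : ℕ) (S : Finset ℕ) (V : Set (X k)) (Gd Gd' : ℕ → Set (X k)) (ν : ℝ), 3 ≤ k → 1 ≤ ν →
    (∀ p ∈ S, p.Prime) → MeasurableSet V → (∀ p ∈ S, MeasurableSet (Gd p)) →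
    (∀ p ∈ S, MeasurableSet (Gd' p)) →
    (∀ p ∈ S, ∀ a ∈ Gd p, ∀ h ∈ H k p 1, a + h ∈ Gd p) →
    (∀ p ∈ S, ∀ a ∈ Gd' p, ∀ h ∈ H k p 1, a + h ∈ Gd' p) →
    (∀ p ∈ S, Gd' p ⊆ Gd p ∧ CntM (H k p k) (H k p 1) (Gd p) ν) →
    mass k (DS S) (fun b x => Star S V Gd b x) ≤ mass k (DS S) (fun b x => Star S V Gd' b x) +
      ν ^ (S.card - 1) * ∑ p ∈ S, (p : ℝ) ^ (KN k - k) * volume.real (Gd p \ Gd' p)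

/-- CV: the points covered by rich stars. -/
def L_CV : Prop :=
  ∀ (k : ℕ) (S : Finset ℕ) (V : Set (X k)) (Gd : ℕ → Set (X k)) (P ν m τ Ω κ : ℝ),
    SData k S V Gd P ν m τ Ω →
    mass k (DS S) (fun b x => Star S V Gd b x ∧ Rich S V κ b x) ≤
      ν ^ S.card * volume.real {w : X k | ∃ (b : X k) (x : ℕ), x < DS S ∧ phi (DS S) x b = w ∧
        Rich S V κ b x}

/-! ## 5. Result -/

/-- SR: if there are many alive points, then many alive points lie on long dense lines. -/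
def L_SR : Prop :=
  ∀ k : ℕ, 3 ≤ k → ∀ δ C₄ C₃ σ : ℝ, 0 < δ → δ ≤ 1 → 1 ≤ C₄ → 1 ≤ C₃ → 0 < σ → ∃ η M₀ : ℝ, 0 < η ∧
    1 ≤ M₀ ∧ ∀ (M : ℝ) (N₁ : ℕ), M₀ ≤ M → M ^ (1 + δ) ≤ (N₁ : ℝ) → (N₁ : ℝ) ≤ M ^ C₄ →
    M ^ ((KN k : ℝ) - η) ≤ (N₁ : ℝ) ^ (KN k) * volume.real {a : X k | M ^ (-(1 / 2 : ℝ)) ≤ ‖u N₁ a‖} →
    ∃ (N₀ : ℕ) (S : Finset ℕ), M ^ (1 + δ / 2) ≤ (N₀ : ℝ) ∧ N₀ ≤ N₁ ∧ (∀ p ∈ S, p.Prime) ∧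
      M ^ C₃ ≤ (DS S : ℝ) ∧
      M ^ ((KN k : ℝ) - σ) ≤ (N₀ : ℝ) ^ (KN k) * volume.real {w : X k | ∃ (b : X k) (x : ℕ),
        x < DS S ∧ phi (DS S) x b = w ∧
        Rich S {v : X k | M ^ (-(1 / 2 : ℝ)) / 8 ≤ ‖u N₀ v‖} (M ^ (-σ)) b x}

end Pool.Agent.H24.LV
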