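import Pool.Agent.H24.LV.Targets

/-!
# Power saving above the square root barrier: interfaces of the end (helper24)

`E_WE`, `E_DW`: helper31. `E_ME`: helper50 and helper26 (additive Weil: helper51). `E_FI`: the theorem.
-/

set_option autoImplicit false

open Finset MeasureTheory

namespace Pool.Agent.H24.LV

open Pool.Agent.H24.CL

/-- WE: the centre of a rich star over a long line is seen by the functional. -/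
def E_WE : Prop :=
  ∀ k : ℕ, 3 ≤ k → ∀ δ C₄ : ℝ, 0 < δ → δ ≤ 1 → 1 ≤ C₄ → ∃ C₃ CR σ₀ : ℝ, 1 ≤ C₃ ∧ 1 ≤ CR ∧ 0 < σ₀ ∧
    ∀ σ : ℝ, 0 < σ → σ ≤ σ₀ → ∃ M₀ : ℝ, 1 ≤ M₀ ∧ ∀ (M : ℝ) (N : ℕ) (S : Finset ℕ) (b : X k) (x : ℕ),
      M₀ ≤ M → M ^ (1 + δ / 2) ≤ (N : ℝ) → (N : ℝ) ≤ M ^ C₄ → (∀ p ∈ S, p.Prime) →
      M ^ C₃ ≤ (DS S : ℝ) → x < DS S →
      Rich S {v : X k | M ^ (-(1 / 2 : ℝ)) / 8 ≤ ‖u N v‖} (M ^ (-σ)) b x →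
        phi (DS S) x b ∈ WS k N (M ^ CR) (M ^ (1 + 2 * σ))

/-- DW: for very long sums every alive point is seen by the functional. -/
def E_DW : Prop :=
  ∀ k : ℕ, 3 ≤ k → ∃ C₄ CR M₀ : ℝ, 1 ≤ C₄ ∧ 1 ≤ CR ∧ 1 ≤ M₀ ∧ ∀ (M : ℝ) (N : ℕ) (w : X k), M₀ ≤ M →
    M ^ C₄ ≤ (N : ℝ) → M ^ (-(1 / 2 : ℝ)) ≤ ‖u N w‖ → w ∈ WS k N (M ^ CR) (2 * M)

/-- ME: the measure of the points seen by the functional. -/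
def E_ME : Prop :=
  ∀ k : ℕ, 3 ≤ k → ∀ s ε : ℝ, (k : ℝ) ^ 2 / 2 + 1 < s → s < KN k → 0 < ε → ∃ C : ℝ, 1 ≤ C ∧
    ∀ (N : ℕ) (R M' : ℝ), 1 ≤ N → 1 ≤ R → 1 ≤ M' → C * (R * M') ^ ε * M' ≤ N →
      (N : ℝ) ^ (KN k) * volume.real (WS k N R M') ≤ C * R ^ ε * M' ^ s

/-- FI: the theorem. -/
def E_FI : Prop :=
  ∀ k : ℕ, 3 ≤ k → ∀ δ : ℝ, 0 < δ → ∃ c C : ℝ, 0 < c ∧ ∀ (M : ℝ) (N : ℕ), 1 ≤ M →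
    M ^ (1 + δ) ≤ (N : ℝ) →
      (N : ℝ) ^ (KN k) * volume.real {a : X k | M ^ (-(1 / 2 : ℝ)) ≤ ‖u N a‖} ≤
        C * M ^ ((KN k : ℝ) - c)

end Pool.Agent.H24.LV
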