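import Pool.Agent.H24.LV.TargetsE

/-!
# Power saving above the square root barrier: the asymptotic formula (helper24)

The moment of order `k (k + 1)` over the set `N^(1/2+δ) ≤ |f|` is `𝔖 ℑ N^K + O(N^(K-c))`.
-/

set_option autoImplicit false

open Finset MeasureTheory

namespace Pool.Agent.H24.LV

open Pool.Agent.H24.CL

/-- the normalised complete sum `q⁻¹ ∑_z e(∑ a_i z^(i+1) / q)` -/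
noncomputable def Sq {k : ℕ} (q : ℕ) (a : Fin k → ℤ) : ℂ :=
  (1 / (q : ℂ)) * ∑ z ∈ range q, e (((∑ i : Fin k, (a i : ℝ) * (z : ℝ) ^ (i.val + 1)) / (q : ℝ) : ℝ) :
    UnitAddCircle)

/-- the oscillatory integral `∫_0^1 e(∑ γ_i x^(i+1)) dx` -/
noncomputable def vI {k : ℕ} (γ : Fin k → ℝ) : ℂ :=
  ∫ x in (0 : ℝ)..1, e ((∑ i : Fin k, γ i * x ^ (i.val + 1) : ℝ) : UnitAddCircle)

open Classical in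
/-- the numerators `0 ≤ a_i < q` with `gcd(q, a_1, …, a_k) = 1` -/
noncomputable def Red (k q : ℕ) : Finset (Fin k → ℕ) :=
  (Fintype.piFinset fun _ : Fin k => range q).filter fun a =>
    ∀ d : ℕ, d ∣ q → (∀ i, d ∣ a i) → d = 1

/-- the term of the singular series -/
noncomputable def st (k q : ℕ) : ℝ :=
  ∑ a ∈ Red k q, ‖Sq q (fun i : Fin k => (a i : ℤ))‖ ^ (2 * KN k)

/-- the partial sums of the singular series -/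
noncomputable def SS (k Q : ℕ) : ℝ := ∑ q ∈ Icc 1 Q, st k q

/-- the truncated singular integral -/
noncomputable def SI (k : ℕ) (G : ℝ) : ℝ :=
  ∫ γ in {γ : Fin k → ℝ | ∀ i, |γ i| ≤ G}, ‖vI γ‖ ^ (2 * KN k)

/-- the major arcs -/
def Maj (k N : ℕ) (Q : ℕ) : Set (X k) :=
  {w | ∃ (q : ℕ) (a : Fin k → ℤ) (θ : Fin k → ℝ), 1 ≤ q ∧ q ≤ Q ∧
    (∀ d : ℕ, d ∣ q → (∀ i, (d : ℤ) ∣ a i) → d = 1) ∧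
    (∀ i, w i = (((a i : ℝ) / q + θ i : ℝ) : UnitAddCircle)) ∧
    (∀ i, |θ i| * (N : ℝ) ^ (i.val + 1) ≤ Q)}

/-- AP: the approximation on the major arcs. -/
def M_AP : Prop :=
  ∀ k : ℕ, ∃ C : ℝ, 1 ≤ C ∧ ∀ (N q : ℕ) (a : Fin k → ℤ) (θ : Fin k → ℝ) (w : X k) (G : ℝ), 1 ≤ N →
    1 ≤ q → 1 ≤ G → (∀ i, w i = (((a i : ℝ) / q + θ i : ℝ) : UnitAddCircle)) →
    (∀ i, |θ i| * (N : ℝ) ^ (i.val + 1) ≤ G) →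
      ‖f N w - (N : ℂ) * Sq q a * vI (fun i => θ i * (N : ℝ) ^ (i.val + 1))‖ ≤ C * q * G

/-- WI: large values lie on the major arcs. -/
def M_WI : Prop :=
  ∀ k : ℕ, 2 ≤ k → ∃ C : ℝ, 1 ≤ C ∧ ∀ (N Q : ℕ) (M : ℝ) (w : X k), 1 ≤ M → C * M ^ C ≤ Q →
    C * M ^ C ≤ N → M ^ (-(1 / 2 : ℝ)) ≤ ‖u N w‖ → w ∈ Maj k N Q

/-- MJ: the moment over the major arcs. -/
def M_MJ : Prop :=
  ∀ k : ℕ, 2 ≤ k → ∃ C : ℝ, 1 ≤ C ∧ ∀ N Q : ℕ, 1 ≤ Q → C * (Q : ℝ) ^ C ≤ N →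
    MeasurableSet (Maj k N Q) ∧
    (N : ℝ) ^ (KN k) * volume.real (Maj k N Q) ≤ C * (Q : ℝ) ^ C ∧
    |(∫ w in Maj k N Q, ‖f N w‖ ^ (2 * KN k)) - (N : ℝ) ^ (KN k) * (SS k Q * SI k Q)| ≤
      C * (Q : ℝ) ^ C * (N : ℝ) ^ ((KN k : ℝ) - 1)

/-- LY: the moment between two levels. -/
def M_LY : Prop :=
  ∀ k : ℕ, 3 ≤ k → ∀ δ : ℝ, 0 < δ → ∃ c C : ℝ, 0 < c ∧ ∀ (N : ℕ) (T : ℝ), 1 ≤ N →
    (N : ℝ) ^ (1 / 2 + δ) ≤ T →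
    volume.real {a : X k | T ≤ ‖f N a‖} * T ^ (2 * KN k) ≤ C * (N : ℝ) ^ (KN k) * (T / N) ^ c ∧
    ∫ a in {a : X k | (N : ℝ) ^ (1 / 2 + δ) ≤ ‖f N a‖ ∧ ‖f N a‖ < T}, ‖f N a‖ ^ (2 * KN k) ≤
      C * (N : ℝ) ^ (KN k) * (T / N) ^ c

/-- CP: comparison with the major arcs. -/
def M_CP : Prop :=
  ∀ k : ℕ, 3 ≤ k → ∀ δ : ℝ, 0 < δ → δ < 1 / 2 → ∃ u₀ : ℝ, 0 < u₀ ∧ ∀ v : ℝ, 0 < v → v ≤ u₀ →
    ∃ c C : ℝ, 0 < c ∧ ∀ N : ℕ, 1 ≤ N →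
      |(∫ a in {a : X k | (N : ℝ) ^ (1 / 2 + δ) ≤ ‖f N a‖}, ‖f N a‖ ^ (2 * KN k)) -
        (N : ℝ) ^ (KN k) * (SS k ⌊(N : ℝ) ^ v⌋₊ * SI k ⌊(N : ℝ) ^ v⌋₊)| ≤ C * (N : ℝ) ^ ((KN k : ℝ) - c)

/-- AS: the asymptotic formula. -/
def M_AS : Prop :=
  ∀ k : ℕ, 3 ≤ k → Summable (fun q : ℕ => st k (q + 1)) ∧
    Integrable (fun γ : Fin k → ℝ => ‖vI γ‖ ^ (2 * KN k)) ∧
    ∀ δ : ℝ, 0 < δ → δ < 1 / 2 → ∃ c C : ℝ, 0 < c ∧ ∀ N : ℕ, 1 ≤ N →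
      |(∫ a in {a : X k | (N : ℝ) ^ (1 / 2 + δ) ≤ ‖f N a‖}, ‖f N a‖ ^ (2 * KN k)) -
        (N : ℝ) ^ (KN k) * ((∑' q : ℕ, st k (q + 1)) * ∫ γ : Fin k → ℝ, ‖vI γ‖ ^ (2 * KN k))| ≤
          C * (N : ℝ) ^ ((KN k : ℝ) - c)

/-- LG: no logarithm up to an arbitrarily small constant. -/
def M_LG : Prop :=
  ∀ k : ℕ, 3 ≤ k → ∀ ε : ℝ, 0 < ε → ∃ C : ℝ, ∀ N : ℕ, 1 ≤ N →
    ∫ a : X k, ‖f N a‖ ^ (2 * KN k) ≤ (ε * Real.log N + C) * (N : ℝ) ^ (KN k)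

end Pool.Agent.H24.LV
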